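import Pool.Agent.D0H83.AC.Stm

set_option autoImplicit false

/-!
# Project AC, module FAR: along a Farber sequence most points have large orbits
-/

namespace Pool.Agent.D0H25.AC

open Finset Filter Topology Pool.Agent.Q181.TG Pool.Agent.D0H83.AC

open Classical in
theorem far_fix {G : Type} [Group G] {X : ℕ → Type} [∀ n, Fintype (X n)] [∀ n, MulAction G (X n)]
    (h : Far G X) (g : G) (hg : g ≠ 1) :
    Tendsto (fun n => ((#{x : X n | g • x = x} : ℕ) : ℝ) / Fintype.card (X n))
      atTop (𝓝 0) := by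
  have := h g hg
  simpa only [Nat.card_eq_fintype_card, Fintype.card_subtype] using this

open Classical in
/-- the points with small orbits -/
noncomputable def bad {G : Type} [Group G] (Λ : Subgroup G) (X : Type) [Fintype X] [MulAction G X]
    (L : ℕ) : Finset X := {x | #{y : X | ob Λ X y = ob Λ X x} ≤ L}

theorem ob_eq {G : Type} [Group G] (Λ : Subgroup G) (X : Type) [MulAction G X] (g : Λ) (x : X) :
    ob Λ X (g • x) = ob Λ X x :=
  Quotient.sound (MulAction.orbitRel_apply.2 ⟨g, rfl⟩)

open Classical in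
theorem bad_le {G : Type} [Group G] (Λ : Subgroup G) (L : ℕ) (f : Fin (L + 1) → Λ)
    (X : Type) [Fintype X] [MulAction G X] :
    #(bad Λ X L) ≤ ∑ p ∈ (univ : Finset (Fin (L + 1) × Fin (L + 1))).filter (fun p => p.1 ≠ p.2),
      #{x : X | ((f p.2 : G)⁻¹ * (f p.1 : G)) • x = x} := by
  refine le_trans (card_le_card ?_) card_biUnion_le
  intro x hx
  rw [bad, mem_filter] at hx
  have h1 : #{y : X | ob Λ X y = ob Λ X x} < #(univ : Finset (Fin (L + 1))) := by
    rw [card_univ, Fintype.card_fin]
    exact Nat.lt_succ_of_le hx.2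
  obtain ⟨i, -, j, -, hij, he⟩ := exists_ne_map_eq_of_card_lt_of_maps_to h1
    (f := fun i => f i • x) (fun i _ => by
      simp only [coe_filter, mem_univ, true_and, Set.mem_ofPred_eq]
      exact ob_eq Λ X (f i) x)
  rw [mem_biUnion]
  refine ⟨(i, j), ?_, ?_⟩
  · rw [mem_filter]
    exact ⟨mem_univ _, hij⟩
  · rw [mem_filter]
    refine ⟨mem_univ _, ?_⟩
    have he' : (f i : G) • x = (f j : G) • x := he
    rw [mul_smul, he', inv_smul_smul]

theorem bad_tendsto {G : Type} [Group G] (Λ : Subgroup G) [Infinite Λ] (X : ℕ → Type)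
    [∀ n, Fintype (X n)] [∀ n, MulAction G (X n)] (h : Far G X) (L : ℕ) :
    Tendsto (fun n => (#(bad Λ (X n) L) : ℝ) / Fintype.card (X n)) atTop (𝓝 0) := by
  classical
  let f : Fin (L + 1) → Λ := fun i => Infinite.natEmbedding Λ i
  have hf : Function.Injective f := fun i j hij =>
    Fin.ext ((Infinite.natEmbedding Λ).injective hij)
  have h1 : Tendsto (fun n => ∑ p ∈ (univ : Finset (Fin (L + 1) × Fin (L + 1))).filter
      (fun p => p.1 ≠ p.2), ((#{x : X n | ((f p.2 : G)⁻¹ * (f p.1 : G)) • x = x} : ℕ) : ℝ) /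
        Fintype.card (X n)) atTop (𝓝 0) := by
    rw [show (0 : ℝ) = ∑ p ∈ (univ : Finset (Fin (L + 1) × Fin (L + 1))).filter
      (fun p => p.1 ≠ p.2), (0 : ℝ) by simp]
    refine tendsto_finsetSum _ fun p hp => ?_
    refine far_fix h _ fun hg => (mem_filter.1 hp).2 (hf ?_)
    exact (Subtype.ext (inv_mul_eq_one.1 hg)).symm
  refine squeeze_zero (fun n => by positivity) (fun n => ?_) h1
  rw [← sum_div]
  apply div_le_div_of_nonneg_right _ (Nat.cast_nonneg _)
  exact_mod_cast bad_le Λ L f (X n)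

open Classical in
theorem card_orbits_le {G : Type} [Group G] (Λ : Subgroup G) (X : Type) [Fintype X] [MulAction G X]
    [Fintype (MulAction.orbitRel.Quotient Λ X)] (L : ℕ) (hL : 1 ≤ L) :
    (Fintype.card (MulAction.orbitRel.Quotient Λ X) : ℝ) ≤
      #(bad Λ X L) + (Fintype.card X : ℝ) / L := by
  have h0 : (Fintype.card X : ℝ) = ∑ b : MulAction.orbitRel.Quotient Λ X,
      (#{x : X | ob Λ X x = b} : ℝ) := by
    have := card_eq_sum_card_fiberwise (s := (univ : Finset X))
      (t := (univ : Finset (MulAction.orbitRel.Quotient Λ X))) (f := ob Λ X)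
      (fun x _ => mem_coe.2 (mem_univ _))
    rw [card_univ] at this
    exact_mod_cast this
  have h1 : (#(bad Λ X L) : ℝ) = ∑ b : MulAction.orbitRel.Quotient Λ X,
      (if #{x : X | ob Λ X x = b} ≤ L then (#{x : X | ob Λ X x = b} : ℝ) else 0) := by
    have := card_eq_sum_card_fiberwise (s := bad Λ X L)
      (t := (univ : Finset (MulAction.orbitRel.Quotient Λ X))) (f := ob Λ X)
      (fun x _ => mem_coe.2 (mem_univ _))
    rw [this, Nat.cast_sum]
    refine sum_congr rfl fun b _ => ?_
    split_ifs with hb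
    · congr 2
      ext x
      rw [bad, filter_filter, mem_filter, mem_filter]
      refine ⟨fun h => ⟨h.1, h.2.2⟩, fun h => ⟨h.1, ?_, h.2⟩⟩
      rw [h.2]
      exact hb
    · rw [Nat.cast_eq_zero, card_eq_zero, filter_eq_empty_iff]
      intro x hx hxb
      rw [bad, mem_filter, hxb] at hx
      exact hb hx.2
  have hL' : (0 : ℝ) < L := by exact_mod_cast hL
  have h2 : (Fintype.card (MulAction.orbitRel.Quotient Λ X) : ℝ) =
      ∑ _b : MulAction.orbitRel.Quotient Λ X, (1 : ℝ) := by simp
  rw [h2, h1, h0, sum_div, ← sum_add_distrib]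
  refine sum_le_sum fun b _ => ?_
  have h3 : 1 ≤ #{x : X | ob Λ X x = b} := by
    rw [Nat.one_le_iff_ne_zero, Ne, card_eq_zero, ← Ne, ← nonempty_iff_ne_empty]
    obtain ⟨x, hx⟩ := Quotient.exists_rep b
    exact ⟨x, mem_filter.2 ⟨mem_univ _, hx⟩⟩
  have h3' : (1 : ℝ) ≤ #{x : X | ob Λ X x = b} := by exact_mod_cast h3
  split_ifs with hb
  · have : 0 ≤ (#{x : X | ob Λ X x = b} : ℝ) / L := by positivity
    linarith
  · rw [zero_add, le_div_iff₀ hL', one_mul]
    exact_mod_cast (not_le.1 hb).le

theorem tendsto_zero_of {u : ℕ → ℝ} (h0 : ∀ n, 0 ≤ u n)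
    (h : ∀ ε : ℝ, 0 < ε → ∀ᶠ n in atTop, u n < ε) : Tendsto u atTop (𝓝 0) :=
  tendsto_order.2 ⟨fun a ha => Eventually.of_forall fun n => ha.trans_le (h0 n),
    fun a ha => h a ha⟩

theorem orbits {G : Type} [Group G] (Λ : Subgroup G) [Infinite Λ] (X : ℕ → Type)
    [∀ n, Fintype (X n)] [∀ n, Nonempty (X n)] [∀ n, MulAction G (X n)]
    [∀ n, Fintype (MulAction.orbitRel.Quotient Λ (X n))] (h : Far G X) :
    Tendsto (fun n => (Fintype.card (MulAction.orbitRel.Quotient Λ (X n)) : ℝ) /
      Fintype.card (X n)) atTop (𝓝 0) := by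
  classical
  refine tendsto_zero_of (fun n => by positivity) fun ε hε => ?_
  obtain ⟨L, hL⟩ := exists_nat_gt (2 / ε)
  have hL0 : (0 : ℝ) < L := lt_trans (by positivity) hL
  have hL1 : 1 ≤ L := by exact_mod_cast hL0
  have h1 : (1 : ℝ) / L < ε / 2 := by
    rw [div_lt_iff₀ hL0]
    rw [div_lt_iff₀ hε] at hL
    linarith
  filter_upwards [(tendsto_order.1 (bad_tendsto Λ X h L)).2 (ε / 2) (by positivity)] with n hn
  have hX : (0 : ℝ) < Fintype.card (X n) := by exact_mod_cast Fintype.card_pos
  have h2 := div_le_div_of_nonneg_right (card_orbits_le Λ (X n) L hL1) hX.le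
  rw [add_div, div_div, mul_comm (L : ℝ), ← div_div, div_self hX.ne'] at h2
  linarith

open Classical in
theorem t_far : S_far := by
  intro G _ Λ _ X _ _ _ _ h
  have hO := orbits Λ X h
  refine ⟨hO, ?_⟩
  refine tendsto_zero_of (fun n => ?_) fun ε hε => ?_
  · refine div_nonneg (sum_nonneg fun b _ => Real.log_natCast_nonneg _) (Nat.cast_nonneg _)
  · set C : ℝ := |Real.log (ε / 2)| with hC
    have hC0 : 0 ≤ C := abs_nonneg _
    have hlog : ∀ l : ℕ, Real.log l ≤ ε / 2 * l + C := by
      intro l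
      rcases Nat.eq_zero_or_pos l with h0 | h0
      · subst h0
        simp [hC0]
      · have hl : (0 : ℝ) < l := by exact_mod_cast h0
        have h1 := Real.log_le_sub_one_of_pos (show 0 < ε / 2 * l by positivity)
        rw [Real.log_mul (by positivity) hl.ne'] at h1
        have h2 := neg_abs_le (Real.log (ε / 2))
        rw [← hC] at h2
        linarith
    have h3 : Tendsto (fun n => C * ((Fintype.card (MulAction.orbitRel.Quotient Λ (X n)) : ℝ) /
        Fintype.card (X n))) atTop (𝓝 0) := by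
      have := hO.const_mul C
      rwa [mul_zero] at this
    filter_upwards [(tendsto_order.1 h3).2 (ε / 2) (by positivity)] with n hn
    have hX : (0 : ℝ) < Fintype.card (X n) := by exact_mod_cast Fintype.card_pos
    have h0 : (Fintype.card (X n) : ℝ) = ∑ b : MulAction.orbitRel.Quotient Λ (X n),
        (#{x : X n | ob Λ (X n) x = b} : ℝ) := by
      have := card_eq_sum_card_fiberwise (s := (univ : Finset (X n)))
        (t := (univ : Finset (MulAction.orbitRel.Quotient Λ (X n)))) (f := ob Λ (X n))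
        (fun x _ => mem_coe.2 (mem_univ _))
      rw [card_univ] at this
      exact_mod_cast this
    have h4 : ∑ b : MulAction.orbitRel.Quotient Λ (X n),
        Real.log (#{x : X n | ob Λ (X n) x = b}) ≤
        ε / 2 * Fintype.card (X n) +
          C * Fintype.card (MulAction.orbitRel.Quotient Λ (X n)) := by
      calc ∑ b : MulAction.orbitRel.Quotient Λ (X n), Real.log (#{x : X n | ob Λ (X n) x = b})
          ≤ ∑ b : MulAction.orbitRel.Quotient Λ (X n),
            (ε / 2 * (#{x : X n | ob Λ (X n) x = b} : ℝ) + C) := sum_le_sum fun b _ => hlog _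
        _ = _ := by
          rw [sum_add_distrib, ← mul_sum, ← h0, sum_const, card_univ, nsmul_eq_mul]
          ring
    have h5 := div_le_div_of_nonneg_right h4 hX.le
    rw [add_div, mul_div_assoc, mul_div_assoc, div_self hX.ne', mul_one] at h5
    linarith

end Pool.Agent.D0H25.AC
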