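import Pool.Agent.D0H83.AC.Stm
import Pool.Agent.D0H25.AC.Far

set_option autoImplicit false

/-!
# Project AC, module MOM: the moments
-/

namespace Pool.Agent.D0H25.AC

open Matrix Finset Filter Topology Pool.Agent.Q181.TG Pool.Agent.Helper993.FK Pool.Agent.D0H83.AC

open Classical in
theorem rg_trace {G : Type} [Group G] {r : ℕ} (B : Matrix (Fin r) (Fin r) (MonoidAlgebra ℤ G))
    (X : Type) [Fintype X] [MulAction G X] :
    (rg X B).trace = ∑ i, ∑ h ∈ (B i i).coeff.support,
      ((B i i).coeff h : ℝ) * (#{x : X | h • x = x} : ℝ) := by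
  rw [Matrix.trace, Fintype.sum_prod_type, sum_comm]
  refine sum_congr rfl fun i _ => ?_
  have h1 : ∀ x : X, (rg X B).diag (x, i) = ∑ h ∈ (B i i).coeff.support,
      (if h • x = x then ((B i i).coeff h : ℝ) else 0) := by
    intro x
    rw [Matrix.diag_apply, rg, Matrix.map_apply, reg, Finsupp.sum, Int.cast_sum]
    refine sum_congr rfl fun h _ => ?_
    by_cases hx : h • x = x
    · simp [hx]
    · simp [hx]
  rw [sum_congr rfl fun x _ => h1 x, sum_comm]
  refine sum_congr rfl fun h _ => ?_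
  rw [← sum_filter, sum_const, nsmul_eq_mul, mul_comm]

theorem mom_a {G : Type} [Group G] {r : ℕ} (B : Matrix (Fin r) (Fin r) (MonoidAlgebra ℤ G))
    (X : ℕ → Type) [∀ n, Fintype (X n)] [∀ n, Nonempty (X n)] [∀ n, MulAction G (X n)]
    (hF : Far G X) :
    Tendsto (fun n => (rg (X n) B).trace / Fintype.card (X n)) atTop
      (𝓝 (∑ i, ((B i i).coeff 1 : ℝ))) := by
  classical
  have h1 : ∀ n, (rg (X n) B).trace / Fintype.card (X n) = ∑ i, ∑ h ∈ (B i i).coeff.support,
      ((B i i).coeff h : ℝ) * (((#{x : X n | h • x = x} : ℕ) : ℝ) / Fintype.card (X n)) := by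
    intro n
    rw [rg_trace, sum_div]
    refine sum_congr rfl fun i _ => ?_
    rw [sum_div]
    exact sum_congr rfl fun h _ => mul_div_assoc _ _ _
  simp only [h1]
  refine tendsto_finsetSum _ fun i _ => ?_
  have h2 : ((B i i).coeff 1 : ℝ) = ∑ h ∈ (B i i).coeff.support,
      ((B i i).coeff h : ℝ) * (if h = 1 then 1 else 0) := by
    simp only [mul_ite, mul_one, mul_zero]
    rw [sum_ite_eq']
    split_ifs with h
    · rfl
    · rw [Finsupp.notMem_support_iff] at h
      rw [h, Int.cast_zero]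
  rw [h2]
  refine tendsto_finsetSum _ fun h _ => ?_
  apply Tendsto.const_mul
  by_cases hh : h = 1
  · subst hh
    rw [if_pos rfl]
    refine tendsto_const_nhds.congr fun n => ?_
    have hX : (0 : ℝ) < Fintype.card (X n) := by exact_mod_cast Fintype.card_pos
    simp only [one_smul, filter_true, card_univ]
    rw [div_self hX.ne']
  · rw [if_neg hh]
    exact far_fix hF h hh

theorem rMul_pow {G : Type} [Group G] {r : ℕ} (A : Matrix (Fin r) (Fin r) (MonoidAlgebra ℚ G))
    (k : ℕ) : (rMul A) ^ k = rMul (A ^ k) ∨ k = 0 := by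
  induction k with
  | zero => right; rfl
  | succ k ih =>
    left
    rcases ih with ih | ih
    · rw [pow_succ', ih, pow_succ A, rMul_mul]
      rfl
    · subst ih
      simp

theorem toQ_pow {G : Type} [Group G] {r : ℕ} (A : Matrix (Fin r) (Fin r) (MonoidAlgebra ℤ G))
    (k : ℕ) : (A ^ k).map toQ = (A.map toQ) ^ k := by
  have : (toQ : MonoidAlgebra ℤ G → MonoidAlgebra ℚ G)
    = MonoidAlgebra.mapRingHom G (Int.castRingHom ℚ) := rfl
  rw [this]
  exact Matrix.map_pow _ _ _

theorem mom_b {G : Type} [Group G] {r : ℕ} (A : Matrix (Fin r) (Fin r) (MonoidAlgebra ℤ G))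
    (k : ℕ) : traceVal unitVec (rMul ((A * adjZ A).map toQ)) (fun x => x ^ k) =
      ∑ i, ((((A * adjZ A) ^ k) i i).coeff 1 : ℝ) := by
  have hS : 0 ≤ rMul ((A * adjZ A).map toQ) := by
    rw [Pool.Agent.TH630.Tor.mul_adjZ_toQ]
    exact rMul_self_nonneg _
  rw [traceVal]
  refine sum_congr rfl fun i _ => ?_
  rw [cfc_pow_id (R := ℝ) (rMul ((A * adjZ A).map toQ)) k (IsSelfAdjoint.of_nonneg hS)]
  rcases rMul_pow ((A * adjZ A).map toQ) k with h | h
  · rw [h, ← toQ_pow, inner_rMul_unitVec, Matrix.map_apply, toQ_coeff]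
    simp
  · subst h
    rw [pow_zero, pow_zero]
    have h2 : (inner ℂ (unitVec i : L2Pow G r) (unitVec i)).re = 1 := by
      have h3 := inner_self_eq_norm_sq (𝕜 := ℂ) (unitVec i : L2Pow G r)
      rw [norm_unitVec, one_pow] at h3
      exact h3
    have h4 : (((1 : Matrix (Fin r) (Fin r) (MonoidAlgebra ℤ G)) i i).coeff 1 : ℝ) = 1 := by
      rw [Matrix.one_apply_eq]
      simp [MonoidAlgebra.one_def]
    exact h2.trans h4.symm

theorem t_mom : S_mom :=
  ⟨fun _ _ _ B X _ _ _ h => mom_a B X h, fun _ _ _ A k => mom_b A k⟩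

end Pool.Agent.D0H25.AC
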